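import Pool.Agent.H225R3.FoldProof

open UpperHalfPlane

namespace Pool.Agent.Results.MP_44e237_gt.FoldedPlane

open Pool.Agent.H225R3.Fold

theorem result : ∀ (Z : Type) [MetricSpace Z] [Nonempty Z], ∃ f : ℍ × Z → (ℍ × Z) × ℝ,
    IsQI (dX Z) (dR (dX Z)) f ∧ ¬ IsLipschitzGraph (dX Z) f :=
  fun Z _ _ => fold_main Z

end Pool.Agent.Results.MP_44e237_gt.FoldedPlane
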